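import Mathlib
import Pool.Agent.W2helper83.BT.Defs5

set_option autoImplicit false

/-!
# Piece CORH of project BT5: the condition for integer polynomials over `ℚ`
-/

namespace Pool.Agent.W2helper73.BT5

open IsDedekindDomain NumberField Polynomial

variable (v : HeightOneSpectrum (𝓞 ℚ))

theorem val_int_le (n : ℤ) : v.valuation ℚ (n : ℚ) ≤ 1 := by
  have h := v.valuation_le_one (K := ℚ) (n : 𝓞 ℚ)
  simpa using h

theorem ev_le (F : ℤ[X]) (x : ℚ) (hx : v.valuation ℚ x ≤ 1) :
    v.valuation ℚ ((F.map (Int.castRingHom ℚ)).eval x) ≤ 1 := by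
  rw [eval_eq_sum_range]
  refine Valuation.map_sum_le _ fun i _ => ?_
  rw [map_mul, map_pow, coeff_map]
  exact mul_le_one' (val_int_le v _) (pow_le_one₀ zero_le hx)

theorem ev_lt (F : ℤ[X]) (x : ℚ) (hx : v.valuation ℚ x ≤ 1)
    (hF : ∀ i, v.valuation ℚ ((F.coeff i : ℤ) : ℚ) < 1) :
    v.valuation ℚ ((F.map (Int.castRingHom ℚ)).eval x) < 1 := by
  rw [eval_eq_sum_range]
  refine Valuation.map_sum_lt _ one_ne_zero fun i _ => ?_
  rw [map_mul, map_pow, coeff_map]
  calc v.valuation ℚ ((Int.castRingHom ℚ) (F.coeff i)) * v.valuation ℚ x ^ i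
      ≤ v.valuation ℚ ((Int.castRingHom ℚ) (F.coeff i)) * 1 :=
        mul_le_mul' le_rfl (pow_le_one₀ zero_le hx)
    _ < 1 := by rw [mul_one]; exact hF i

theorem exists_prime (n : ℕ) (hn : n ≠ 0) (h : v.valuation ℚ (n : ℚ) < 1) :
    ∃ p : ℕ, p.Prime ∧ v.valuation ℚ (p : ℚ) < 1 := by
  revert hn h
  induction n using induction_on_primes with
  | zero => intro h; exact absurd rfl h
  | one =>
    intro _ h
    rw [Nat.cast_one, map_one] at h
    exact absurd h (lt_irrefl _)
  | prime_mul p a hp ih =>
    intro hn h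
    by_cases hpv : v.valuation ℚ (p : ℚ) < 1
    · exact ⟨p, hp, hpv⟩
    · have h1 : v.valuation ℚ (p : ℚ) = 1 := by
        refine le_antisymm ?_ (not_lt.1 hpv)
        have := val_int_le v (p : ℤ)
        simpa using this
      refine ih (right_ne_zero_of_mul hn) ?_
      rw [Nat.cast_mul, map_mul, h1, one_mul] at h
      exact h

theorem val_lt_iff {p : ℕ} (hp : p.Prime) (hpv : v.valuation ℚ (p : ℚ) < 1) (n : ℤ) :
    v.valuation ℚ (n : ℚ) < 1 ↔ (p : ℤ) ∣ n := by
  constructor
  · intro h
    by_contra hnd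
    have hc : IsCoprime (p : ℤ) n := by
      rw [Int.isCoprime_iff_gcd_eq_one]
      have hp' : Prime (p : ℤ) := Nat.prime_iff_prime_int.1 hp
      exact Int.isCoprime_iff_gcd_eq_one.1 (((Prime.coprime_iff_not_dvd hp').2 hnd))
    obtain ⟨a, b, hab⟩ := hc
    have h1 : ((a * p + b * n : ℤ) : ℚ) = 1 := by rw [hab]; simp
    have h2 : v.valuation ℚ ((a : ℚ) * p + (b : ℚ) * n) < 1 := by
      refine Valuation.map_add_lt _ ?_ ?_
      · rw [map_mul]
        calc v.valuation ℚ (a : ℚ) * v.valuation ℚ (p : ℚ)
            ≤ 1 * v.valuation ℚ (p : ℚ) := mul_le_mul' (val_int_le v a) le_rfl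
          _ < 1 := by rw [one_mul]; exact hpv
      · rw [map_mul]
        calc v.valuation ℚ (b : ℚ) * v.valuation ℚ (n : ℚ)
            ≤ 1 * v.valuation ℚ (n : ℚ) := mul_le_mul' (val_int_le v b) le_rfl
          _ < 1 := by rw [one_mul]; exact h
    have h3 : (a : ℚ) * p + (b : ℚ) * n = 1 := by
      rw [← h1]; push_cast; ring
    rw [h3, map_one] at h2
    exact lt_irrefl _ h2
  · rintro ⟨k, rfl⟩
    push_cast
    rw [map_mul]
    calc v.valuation ℚ (p : ℚ) * v.valuation ℚ (k : ℚ)
        ≤ v.valuation ℚ (p : ℚ) * 1 := mul_le_mul' le_rfl (val_int_le v k)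
      _ < 1 := by rw [mul_one]; exact hpv

theorem corh : Pool.Agent.W2helper83.BT.CORH := by
  intro l H s t hH hs ht hcond v _
  refine ⟨?_, ?_⟩
  · intro i
    rw [coeff_map]
    exact val_int_le v _
  · intro hc
    -- the valuation of t is smaller than one
    have htv : v.valuation ℚ (t : ℚ) < 1 := by
      by_contra hcon
      have h1 : v.valuation ℚ (t : ℚ) = 1 := le_antisymm (val_int_le v t) (not_lt.1 hcon)
      rw [map_div₀, map_pow, h1, one_pow, div_one] at hc
      exact absurd (val_int_le v s) (not_le.2 hc)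
    have htn : v.valuation ℚ ((t.natAbs : ℕ) : ℚ) < 1 := by
      have h1 : ((t.natAbs : ℕ) : ℚ) = |(t : ℚ)| := by
        rw [← Int.cast_natCast, Int.natCast_natAbs, Int.cast_abs]
      rw [h1]
      rcases abs_choice (t : ℚ) with h2 | h2
      · rw [h2]; exact htv
      · rw [h2, Valuation.map_neg]; exact htv
    obtain ⟨p, hp, hpv⟩ := exists_prime v t.natAbs (Int.natAbs_ne_zero.2 ht) htn
    have hpt : (p : ℤ) ∣ t := (val_lt_iff v hp hpv t).1 htv
    obtain ⟨hps, hp0, hsep⟩ := hcond p hp hpt
    have hsv : v.valuation ℚ (s : ℚ) = 1 :=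
      le_antisymm (val_int_le v s) (not_lt.1 fun h => hps ((val_lt_iff v hp hpv s).1 h))
    have h0v : v.valuation ℚ ((H.coeff 0 : ℤ) : ℚ) = 1 :=
      le_antisymm (val_int_le v _) (not_lt.1 fun h => hp0 ((val_lt_iff v hp hpv _).1 h))
    refine ⟨⟨(t : ℚ)⁻¹, ?_⟩, ?_⟩
    · rw [map_div₀, map_pow, hsv, map_inv₀, one_div, inv_pow]
    · intro x hx hHx
      -- Bezout
      obtain ⟨a, b, hab⟩ := hsep
      have hsurj : Function.Surjective (Int.castRingHom (ZMod p)) := ZMod.ringHom_surjective _
      obtain ⟨A, rfl⟩ := Polynomial.map_surjective _ hsurj a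
      obtain ⟨B, rfl⟩ := Polynomial.map_surjective _ hsurj b
      set D : ℤ[X] := A * H + B * derivative H - 1 with hD
      have hD0 : D.map (Int.castRingHom (ZMod p)) = 0 := by
        rw [hD, Polynomial.map_sub, Polynomial.map_add, Polynomial.map_mul, Polynomial.map_mul,
          Polynomial.map_one, ← Polynomial.derivative_map, hab, sub_self]
      have hDc : ∀ i, v.valuation ℚ ((D.coeff i : ℤ) : ℚ) < 1 := by
        intro i
        rw [val_lt_iff v hp hpv]
        have h1 := congrArg (fun q => coeff q i) hD0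
        simp only [coeff_map, coeff_zero] at h1
        rw [← ZMod.intCast_zmod_eq_zero_iff_dvd]
        simpa using h1
      have hDv := ev_lt v D x hx hDc
      have hsum : (B.map (Int.castRingHom ℚ)).eval x *
          ((derivative (H.map (Int.castRingHom ℚ))).eval x) =
          1 + ((D.map (Int.castRingHom ℚ)).eval x -
            (A.map (Int.castRingHom ℚ)).eval x * (H.map (Int.castRingHom ℚ)).eval x) := by
        rw [hD, Polynomial.map_sub, Polynomial.map_add, Polynomial.map_mul, Polynomial.map_mul,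
          Polynomial.map_one, Polynomial.derivative_map]
        simp only [eval_sub, eval_add, eval_mul, eval_one]
        ring
      have hAH : v.valuation ℚ ((A.map (Int.castRingHom ℚ)).eval x *
          (H.map (Int.castRingHom ℚ)).eval x) < 1 := by
        rw [map_mul]
        calc _ ≤ 1 * v.valuation ℚ ((H.map (Int.castRingHom ℚ)).eval x) :=
              mul_le_mul' (ev_le v A x hx) le_rfl
          _ < 1 := by rw [one_mul]; exact hHx
      have hprod : v.valuation ℚ ((B.map (Int.castRingHom ℚ)).eval x *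
          ((derivative (H.map (Int.castRingHom ℚ))).eval x)) = 1 := by
        rw [hsum]
        apply Valuation.map_one_add_of_lt
        exact Valuation.map_sub_lt _ hDv hAH
      constructor
      · by_contra hne
        have hxlt : v.valuation ℚ x < 1 := lt_of_le_of_ne hx hne
        have hdec : (H.map (Int.castRingHom ℚ)).eval x =
            (H.coeff 0 : ℤ) + x * ((divX H).map (Int.castRingHom ℚ)).eval x := by
          conv_lhs => rw [← divX_mul_X_add H]
          rw [Polynomial.map_add, Polynomial.map_mul, Polynomial.map_X, Polynomial.map_C,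
            eval_add, eval_mul, eval_X, eval_C]
          simp only [eq_intCast]
          ring
        have h1 : v.valuation ℚ (x * ((divX H).map (Int.castRingHom ℚ)).eval x) <
            v.valuation ℚ ((H.coeff 0 : ℤ) : ℚ) := by
          rw [h0v, map_mul]
          calc _ ≤ v.valuation ℚ x * 1 := mul_le_mul' le_rfl (ev_le v _ x hx)
            _ < 1 := by rw [mul_one]; exact hxlt
        rw [hdec, Valuation.map_add_eq_of_lt_left _ h1, h0v] at hHx
        exact lt_irrefl _ hHx
      · refine le_antisymm ?_ ?_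
        · rw [Polynomial.derivative_map]
          exact ev_le v _ x hx
        · rw [← hprod, map_mul]
          calc _ ≤ 1 * _ := mul_le_mul' (ev_le v B x hx) le_rfl
            _ = _ := one_mul _

end Pool.Agent.W2helper73.BT5
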